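import Pool.Agent.W921.VP.DefsC

/-!
# VP-F1: a relation symbol of arity at least three
-/

set_option autoImplicit false

namespace Pool.Agent.W515.VP

open Pool.Agent.W921.VP
open FirstOrder Set

variable {L : FirstOrder.Language.{0, 0}} {M : Type}

/-- the tuple `(z, y_b, y_c, ..., y_c)` -/
def tup3 {K : Set M} (n : ℕ) (z : K ⊕ El (Out K)) (b c : ℕ) : Fin n → K ⊕ El (Out K) :=
  fun i => if i.val = 0 then z else if i.val = 1 then Sum.inr (El.y b) else Sum.inr (El.y c)

/-- the pattern of planted triples -/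
def Pat (X : ℕ → Bool) (a b c : ℕ) : Prop :=
  6 ≤ a ∧ b < a ∧ c < b ∧
    ((b + 1 = a ∧ (c + 2 = a ∨ c + 3 = a)) ∨ (b = 1 ∧ c = 0 ∧ X (a - 6) = true))

/-- the plan -/
def plan {K : Set M} (n₀ : ℕ) (R₀ : L.Relations n₀) (p : Out K) (t : Out K → Out K)
    (lt : El (Out K) → El (Out K) → Prop) (X : ℕ → Bool) : Plan L K where
  tyY := fun _ => p
  pY := fun i j => if i < j then (p, t p) else (t p, p)
  P := fun n R s => (⟨n, R⟩ : Sym L) = ⟨n₀, R₀⟩ ∧
    ∃ a b c, s = tup3 n (Sum.inr (El.y a)) b c ∧ Pat X a b c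
  lt := lt

section tuples

variable {K : Set M} {n : ℕ}

theorem tup3_0 (hn : 3 ≤ n) (z : K ⊕ El (Out K)) (b c : ℕ) :
    tup3 n z b c ⟨0, by omega⟩ = z := rfl

theorem tup3_1 (hn : 3 ≤ n) (z : K ⊕ El (Out K)) (b c : ℕ) :
    tup3 n z b c ⟨1, by omega⟩ = Sum.inr (El.y b) := rfl

theorem tup3_2 (hn : 3 ≤ n) (z : K ⊕ El (Out K)) (b c : ℕ) :
    tup3 n z b c ⟨2, by omega⟩ = Sum.inr (El.y c) := rfl

theorem tup3_cases (z : K ⊕ El (Out K)) (b c : ℕ) (i : Fin n) :
    tup3 n z b c i = z ∨ tup3 n z b c i = Sum.inr (El.y b) ∨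
      tup3 n z b c i = Sum.inr (El.y c) := by
  unfold tup3
  split
  · exact Or.inl rfl
  · split
    · exact Or.inr (Or.inl rfl)
    · exact Or.inr (Or.inr rfl)

theorem y_inj {b c : ℕ} (h : (Sum.inr (El.y b) : K ⊕ El (Out K)) = Sum.inr (El.y c)) : b = c := by
  injection h with h
  injection h

theorem tup3_inj (hn : 3 ≤ n) {z z' : K ⊕ El (Out K)} {b c b' c' : ℕ}
    (h : tup3 n z b c = tup3 n z' b' c') : z = z' ∧ b = b' ∧ c = c' := by
  have h0 := congrFun h ⟨0, by omega⟩
  have h1 := congrFun h ⟨1, by omega⟩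
  have h2 := congrFun h ⟨2, by omega⟩
  rw [tup3_0 hn, tup3_0 hn] at h0
  rw [tup3_1 hn, tup3_1 hn] at h1
  rw [tup3_2 hn, tup3_2 hn] at h2
  exact ⟨h0, y_inj h1, y_inj h2⟩

theorem not_one (hn : 3 ≤ n) (z : K ⊕ El (Out K)) {b c : ℕ} (hbc : b ≠ c) :
    ¬ One (tup3 n z b c) := by
  intro h
  have := h ⟨1, by omega⟩ ⟨2, by omega⟩ _ _ (tup3_1 hn z b c) (tup3_2 hn z b c)
  injection this with h1
  exact hbc h1

theorem not_two (hn : 3 ≤ n) {e : El (Out K)} {b c : ℕ} (hbc : b ≠ c) (hb : e ≠ El.y b)
    (hc : e ≠ El.y c) : ¬ ∃ a' b', Two a' b' (tup3 n (Sum.inr e) b c) := by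
  rintro ⟨a', b', _, _, _, h⟩
  have h0 := h _ _ (tup3_0 hn (Sum.inr e) b c)
  have h1 := h _ _ (tup3_1 hn (Sum.inr e) b c)
  have h2 := h _ _ (tup3_2 hn (Sum.inr e) b c)
  have hyne : (El.y b : El (Out K)) ≠ El.y c := by
    intro h3
    injection h3 with h4
    exact hbc h4
  rcases h0 with h0 | h0 <;> rcases h1 with h1 | h1 <;> rcases h2 with h2 | h2
  · exact hyne (h1.trans h2.symm)
  · exact hb (h0.trans h1.symm)
  · exact hc (h0.trans h2.symm)
  · exact hyne (h1.trans h2.symm)
  · exact hyne (h1.trans h2.symm)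
  · exact hc (h0.trans h2.symm)
  · exact hb (h0.trans h1.symm)
  · exact hyne (h1.trans h2.symm)

end tuples

theorem child_y {J : Type} {q : Cp J} {i : ℕ} (h : Child q (El.y i)) : False := by
  obtain ⟨z, _, _, h⟩ := h
  cases h

theorem role_cases {J : Type} {q : Cp J} {a : El J} {z : J} (h : Role q a z) :
    a = q.u ∨ a = q.v ∨ Child q a := by
  cases h with
  | left => exact Or.inl rfl
  | right => exact Or.inr (Or.inl rfl)
  | child z h1 h2 => exact Or.inr (Or.inr ⟨_, h1, h2, rfl⟩)

theorem role_y {J : Type} {q : Cp J} {i : ℕ} {z : J} (h : Role q (El.y i) z) :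
    El.y i = q.u ∨ El.y i = q.v := by
  rcases role_cases h with h | h | h
  · exact Or.inl h
  · exact Or.inr h
  · exact (child_y h).elim

section rel

variable {K : Set M} {n : ℕ} (S : L.Structure M)

theorem relN_P {pl : Plan L K} {t : Out K → Out K} {R : L.Relations n}
    {s : Fin n → K ⊕ El (Out K)} (h1 : ∀ q, ¬ InCopy S pl q s) (h2 : ¬ One s)
    (h3 : ¬ ∃ a b, Two a b s) : RelN S pl t R s ↔ pl.P n R s := by
  unfold RelN
  constructor
  · rintro (⟨q, hq, _⟩ | ⟨_, h | h | h⟩)
    · exact absurd hq (h1 q)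
    · exact absurd h.1 h2
    · obtain ⟨a, b, h, _⟩ := h
      exact absurd ⟨a, b, h⟩ h3
    · exact h.2.2
  · intro h
    exact Or.inr ⟨fun ⟨q, hq⟩ => h1 q hq, Or.inr (Or.inr ⟨h2, h3, h⟩)⟩

variable (hn : 3 ≤ n) (R : L.Relations n) (p : Out K) (t : Out K → Out K)
  (lt : El (Out K) → El (Out K) → Prop) (X : ℕ → Bool)

include hn in
theorem rel_y {a b c : ℕ} (hab : a ≠ b) (hac : a ≠ c) (hbc : b ≠ c) :
    RelN S (plan n R p t lt X) t R (tup3 n (Sum.inr (El.y a)) b c) ↔ Pat X a b c := by
  rw [relN_P]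
  · constructor
    · rintro ⟨_, a', b', c', h1, h2⟩
      obtain ⟨h3, rfl, rfl⟩ := tup3_inj hn h1
      rw [y_inj h3]
      exact h2
    · intro h
      exact ⟨rfl, a, b, c, rfl, h⟩
  · rintro q ⟨_, ⟨i, e, h1, h2⟩, _⟩
    rcases tup3_cases (Sum.inr (El.y a)) b c i with h3 | h3 | h3
    all_goals
      rw [h1] at h3
      injection h3 with h3
      rw [h3] at h2
      exact child_y h2
  · exact not_one hn _ hbc
  · refine not_two hn hbc ?_ ?_
    · intro h
      injection h with h
      exact hab h
    · intro h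
      injection h with h
      exact hac h

include hn in
theorem rel_new {u v : El (Out K)} {m m' w : Out K} {b c : ℕ} (hbc : b ≠ c)
    (h : RelN S (plan n R p t lt X) t R (tup3 n (Sum.inr (El.new u v m m' w)) b c)) :
    (u = El.y b ∧ v = El.y c) ∨ (u = El.y c ∧ v = El.y b) := by
  have hne : ∀ i, (El.new u v m m' w : El (Out K)) ≠ El.y i := by
    intro i h
    cases h
  by_cases hq : ∃ q, InCopy S (plan n R p t lt X) q (tup3 n (Sum.inr (El.new u v m m' w)) b c)
  · obtain ⟨q, _, ⟨i, e, h1, h2⟩, h3⟩ := hq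
    have h4 : e = El.new u v m m' w := by
      rcases tup3_cases (Sum.inr (El.new u v m m' w)) b c i with h3 | h3 | h3
      · rw [h1] at h3
        injection h3 with h3
      all_goals
        rw [h1] at h3
        injection h3 with h3
        rw [h3] at h2
        exact (child_y h2).elim
    obtain ⟨z, _, _, h5⟩ := h2
    rw [h4] at h5
    injection h5 with hu hv _ _ _
    obtain ⟨z1, hz1⟩ := h3 _ _ (tup3_1 hn _ b c)
    obtain ⟨z2, hz2⟩ := h3 _ _ (tup3_2 hn _ b c)
    have hyne : (El.y b : El (Out K)) ≠ El.y c := by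
      intro h3
      injection h3 with h4
      exact hbc h4
    rcases role_y hz1 with h6 | h6 <;> rcases role_y hz2 with h7 | h7
    · exact absurd (h6.trans h7.symm) hyne
    · exact Or.inl ⟨hu.trans h6.symm, hv.trans h7.symm⟩
    · exact Or.inr ⟨hu.trans h7.symm, hv.trans h6.symm⟩
    · exact absurd (h6.trans h7.symm) hyne
  · exfalso
    rw [relN_P S (fun q h => hq ⟨q, h⟩) (not_one hn _ hbc)
      (not_two hn hbc (hne b) (hne c))] at h
    obtain ⟨_, a', b', c', h1, _⟩ := h
    have h2 := (tup3_inj hn h1).1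
    injection h2 with h2
    exact hne _ h2

include hn in
theorem rel_inl (k : K) {b c : ℕ} (hcb : c < b) :
    RelN S (plan n R p t lt X) t R (tup3 n (Sum.inl k) b c) ↔
      S.RelMap R (fun i => if i.val = 0 then (k : M) else if i.val = 1 then (t p : M)
        else (p : M)) := by
  classical
  have hyne : (El.y b : El (Out K)) ≠ El.y c := by
    intro h3
    injection h3 with h4
    omega
  have hcases : ∀ (i : Fin n) (e : El (Out K)), tup3 n (Sum.inl k) b c i = Sum.inr e →
      e = El.y b ∨ e = El.y c := by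
    intro i e h
    rcases tup3_cases (Sum.inl k) b c i with h3 | h3 | h3
    · rw [h] at h3
      cases h3
    · rw [h] at h3
      injection h3 with h3
      exact Or.inl h3
    · rw [h] at h3
      injection h3 with h3
      exact Or.inr h3
  have hnc : ∀ q, ¬ InCopy S (plan n R p t lt X) q (tup3 n (Sum.inl k) b c) := by
    rintro q ⟨_, ⟨i, e, h1, h2⟩, _⟩
    rcases hcases i e h1 with rfl | rfl
    · exact child_y h2
    · exact child_y h2
  have htwo : Two (El.y b) (El.y c) (tup3 n (Sum.inl k) b c) :=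
    ⟨hyne, ⟨_, tup3_1 hn _ b c⟩, ⟨_, tup3_2 hn _ b c⟩, hcases⟩
  have hpp1 : pp (plan n R p t lt X) t (El.y b) (El.y c) = (t p, p) := by
    show (if b < c then (p, t p) else (t p, p)) = (t p, p)
    rw [if_neg (by omega)]
  have hpp2 : pp (plan n R p t lt X) t (El.y c) (El.y b) = (p, t p) := by
    show (if c < b then (p, t p) else (t p, p)) = (p, t p)
    rw [if_pos hcb]
  -- the values
  have hval : ∀ ρ : El (Out K) → Out K, ρ (El.y b) = t p → ρ (El.y c) = p →
      (fun i => ev ρ (tup3 n (Sum.inl k) b c i)) =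
        fun i : Fin n => if i.val = 0 then (k : M) else if i.val = 1 then (t p : M)
          else (p : M) := by
    intro ρ h1 h2
    funext i
    unfold tup3
    by_cases hi : i.val = 0
    · rw [if_pos hi, if_pos hi]
      rfl
    · rw [if_neg hi, if_neg hi]
      by_cases hi1 : i.val = 1
      · rw [if_pos hi1, if_pos hi1]
        show ((ρ (El.y b) : Out K) : M) = _
        rw [h1]
      · rw [if_neg hi1, if_neg hi1]
        show ((ρ (El.y c) : Out K) : M) = _
        rw [h2]
  unfold RelN
  constructor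
  · rintro (⟨q, hq, _⟩ | ⟨_, h | h | h⟩)
    · exact absurd hq (hnc q)
    · exact absurd h.1 (not_one hn _ hcb.ne')
    · obtain ⟨a', b', ⟨hne, ⟨i, hi⟩, ⟨j, hj⟩, _⟩, h⟩ := h
      rcases hcases i a' hi with rfl | rfl <;> rcases hcases j b' hj with rfl | rfl
      · exact absurd rfl hne
      · rw [hval] at h
        · exact h
        · rw [if_pos rfl, hpp1]
        · rw [if_neg hyne.symm, hpp1]
      · rw [hval] at h
        · exact h
        · rw [if_neg hyne, hpp2]
        · rw [if_pos rfl, hpp2]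
      · exact absurd rfl hne
    · exact absurd ⟨_, _, htwo⟩ h.2.1
  · intro h
    refine Or.inr ⟨fun ⟨q, hq⟩ => hnc q hq, Or.inr (Or.inl ⟨El.y b, El.y c, htwo, ?_⟩)⟩
    rw [hval]
    · exact h
    · rw [if_pos rfl, hpp1]
    · rw [if_neg hyne.symm, hpp1]

include hn in
/-- the point `y_m` is determined by the points `y_i`, `i < m` -/
theorem det {m : ℕ} (hm : 6 ≤ m) (z : K ⊕ El (Out K))
    (hz : ∀ i < m, z ≠ Sum.inr (El.y i))
    (h : ∀ b c, c < b → b < m → ¬ (b = 1 ∧ c = 0) →
      (RelN S (plan n R p t lt X) t R (tup3 n z b c) ↔ b + 1 = m ∧ (c + 2 = m ∨ c + 3 = m))) :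
    z = Sum.inr (El.y m) := by
  have h1 := (h (m - 1) (m - 2) (by omega) (by omega) (by omega)).2 ⟨by omega, Or.inl (by omega)⟩
  have h2 := (h (m - 1) (m - 3) (by omega) (by omega) (by omega)).2 ⟨by omega, Or.inr (by omega)⟩
  rcases z with k | e
  · exfalso
    rw [rel_inl S hn R p t lt X k (by omega)] at h1
    have h3 := (h 2 0 (by omega) (by omega) (by omega)).1
      ((rel_inl S hn R p t lt X k (by omega)).2 h1)
    omega
  · cases e with
    | y a =>
      have ha : m ≤ a := by
        by_contra hlt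
        exact hz a (by omega) rfl
      rw [rel_y S hn R p t lt X (by omega) (by omega) (by omega)] at h1
      obtain ⟨_, _, _, h4 | h4⟩ := h1
      · have h5 : a = m := by omega
        rw [h5]
      · omega
    | new u v r r' w =>
      exfalso
      have h3 := rel_new S hn R p t lt X (by omega) h1
      have h4 := rel_new S hn R p t lt X (by omega) h2
      have hy : ∀ i j : ℕ, (El.y i : El (Out K)) = El.y j → i = j := by
        intro i j h
        injection h
      rcases h3 with ⟨h3, h3'⟩ | ⟨h3, h3'⟩ <;> rcases h4 with ⟨h4, h4'⟩ | ⟨h4, h4'⟩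
      · have := hy _ _ (h3'.symm.trans h4')
        omega
      · have := hy _ _ (h3.symm.trans h4)
        omega
      · have := hy _ _ (h3.symm.trans h4)
        omega
      · have := hy _ _ (h3.symm.trans h4)
        omega

end rel

theorem planOk {K : Set M} {n : ℕ} (S : L.Structure M) (R : L.Relations n) (p : Out K)
    (t : Out K → Out K) (ht : t p ≠ p) (hs : Sim S K p (t p))
    (lt : El (Out K) → El (Out K) → Prop) (h1 : ∀ a b, a ≠ b → (lt a b ↔ ¬ lt b a))
    (h2 : ∀ i u v m m' z, lt (El.y i) (El.new u v m m' z)) (X : ℕ → Bool) :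
    PlanOk S K (plan n R p t lt X) := by
  refine ⟨?_, ?_, ?_, h1, h2⟩
  · intro i j hij
    show (if j < i then (p, t p) else (t p, p)) = (if i < j then (p, t p) else (t p, p)).swap
    by_cases h : i < j
    · rw [if_neg (by omega), if_pos h]
      rfl
    · rw [if_pos (by omega), if_neg h]
      rfl
  · intro i j hij
    show (if i < j then (p, t p) else (t p, p)).1 ≠ (if i < j then (p, t p) else (t p, p)).2
    by_cases h : i < j
    · rw [if_pos h]
      exact ht.symm
    · rw [if_neg h]
      exact ht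
  · intro i j hij
    show Sim S K ((if i < j then (p, t p) else (t p, p)).1 : Out K) (p : M)
    by_cases h : i < j
    · rw [if_pos h]
      intro _ _ _
      exact Iff.rfl
    · rw [if_neg h]
      intro k R' f
      exact (hs k R' f).symm

theorem isClopen_prop {α : Type} [TopologicalSpace α] (P : Prop) : IsClopen {_x : α | P} := by
  by_cases h : P
  · have : {_x : α | P} = univ := eq_univ_of_forall fun _ => h
    rw [this]
    exact isClopen_univ
  · have : {_x : α | P} = ∅ := eq_empty_of_forall_notMem fun _ => h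
    rw [this]
    exact isClopen_empty

theorem task (hf : S_FAM) (ho : S_ORD) : S_F1 := by
  classical
  intro L hL hrel n hn R T M S K t hB
  have := hrel
  obtain ⟨p⟩ := hB.out
  obtain ⟨lt, hlt1, hlt2⟩ := ho (Out K)
  refine hf L hL T M S K t hB (fun X => plan n R p t lt X)
    (fun X => planOk S R p t (hB.tw p).1 (hB.tw p).2 lt hlt1 hlt2 X) (fun _ _ => ⟨rfl, rfl⟩)
    (fun i j v => ?_) (fun n' R' s => ?_) 6 ?_
  · exact isClopen_prop (α := ℕ → Bool) ((if i < j then (p, t p) else (t p, p)) = v)
  · show IsClopen {X : ℕ → Bool | (⟨n', R'⟩ : Sym L) = ⟨n, R⟩ ∧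
      ∃ a b c, s = tup3 n' (Sum.inr (El.y a)) b c ∧ Pat X a b c}
    by_cases h1 : (⟨n', R'⟩ : Sym L) = ⟨n, R⟩
    · have hn' : 3 ≤ n' := by
        have := congrArg Sigma.fst h1
        simp only at this
        omega
      by_cases h2 : ∃ a b c, s = tup3 n' (Sum.inr (El.y a)) b c
      · obtain ⟨a, b, c, rfl⟩ := h2
        have h3 : {X : ℕ → Bool | (⟨n', R'⟩ : Sym L) = ⟨n, R⟩ ∧
            ∃ a' b' c', tup3 (K := K) n' (Sum.inr (El.y a)) b c =
              tup3 n' (Sum.inr (El.y a')) b' c' ∧ Pat X a' b' c'} = {X | Pat X a b c} := by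
          ext X
          constructor
          · rintro ⟨_, a', b', c', h4, h5⟩
            obtain ⟨h6, rfl, rfl⟩ := tup3_inj hn' h4
            have h7 := y_inj h6
            subst h7
            exact h5
          · intro h
            exact ⟨h1, a, b, c, rfl, h⟩
        rw [h3]
        have h4 : {X : ℕ → Bool | Pat X a b c} =
            {_X : ℕ → Bool | 6 ≤ a ∧ b < a ∧ c < b} ∩
            ({_X : ℕ → Bool | b + 1 = a ∧ (c + 2 = a ∨ c + 3 = a)} ∪
              ({_X : ℕ → Bool | b = 1 ∧ c = 0} ∩ {X | X (a - 6) = true})) := by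
          ext X
          unfold Pat
          simp only [mem_inter_iff, mem_union, mem_ofPred_eq]
          tauto
        rw [h4]
        refine (isClopen_prop _).inter ((isClopen_prop _).union ((isClopen_prop _).inter ?_))
        exact (isClopen_discrete {true}).preimage (continuous_apply (a - 6))
      · have h3 : {X : ℕ → Bool | (⟨n', R'⟩ : Sym L) = ⟨n, R⟩ ∧
            ∃ a b c, s = tup3 n' (Sum.inr (El.y a)) b c ∧ Pat X a b c} = ∅ := by
          refine eq_empty_of_forall_notMem ?_
          rintro X ⟨_, a, b, c, h3, _⟩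
          exact h2 ⟨a, b, c, h3⟩
        rw [h3]
        exact isClopen_empty
    · have h3 : {X : ℕ → Bool | (⟨n', R'⟩ : Sym L) = ⟨n, R⟩ ∧
          ∃ a b c, s = tup3 n' (Sum.inr (El.y a)) b c ∧ Pat X a b c} = ∅ := by
        refine eq_empty_of_forall_notMem ?_
        rintro X ⟨h3, _⟩
        exact h1 h3
      rw [h3]
      exact isClopen_empty
  · intro X X' e he hfix
    have hrelE : ∀ s : Fin n → K ⊕ El (Out K), RelN S (plan n R p t lt X) t R s ↔
        RelN S (plan n R p t lt X') t R (fun i => e (s i)) := fun s => he n R s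
    have hetup : ∀ (z : K ⊕ El (Out K)) (b c : ℕ),
        e (Sum.inr (El.y b)) = Sum.inr (El.y b) → e (Sum.inr (El.y c)) = Sum.inr (El.y c) →
        (fun i => e (tup3 n z b c i)) = tup3 n (e z) b c := by
      intro z b c hb hc
      funext i
      unfold tup3
      by_cases hi : i.val = 0
      · rw [if_pos hi, if_pos hi]
      · rw [if_neg hi, if_neg hi]
        by_cases hi1 : i.val = 1
        · simp only [if_pos hi1]
          exact hb
        · simp only [if_neg hi1]
          exact hc
    have hall : ∀ m, e (Sum.inr (El.y m)) = Sum.inr (El.y m) := by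
      intro m
      induction m using Nat.strong_induction_on with
      | _ m ih =>
        by_cases hm : m < 6
        · exact hfix m hm
        · refine det S hn R p t lt X' (by omega) _ ?_ ?_
          · intro i hi h
            rw [← ih i hi] at h
            have h1 := y_inj (e.injective h)
            omega
          · intro b c hcb hbm hbc
            rw [← hetup _ b c (ih b hbm) (ih c (by omega)), ← hrelE,
              rel_y S hn R p t lt X (by omega) (by omega) (by omega)]
            unfold Pat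
            constructor
            · rintro ⟨_, _, _, h | h⟩
              · exact h
              · exact absurd ⟨h.1, h.2.1⟩ hbc
            · intro h
              exact ⟨by omega, hbm, hcb, Or.inl h⟩
    funext i
    have h1 := hrelE (tup3 n (Sum.inr (El.y (i + 6))) 1 0)
    rw [hetup _ 1 0 (hall 1) (hall 0), hall, rel_y S hn R p t lt X (by omega) (by omega) (by omega),
      rel_y S hn R p t lt X' (by omega) (by omega) (by omega)] at h1
    have h2 : ∀ Y : ℕ → Bool, Pat Y (i + 6) 1 0 ↔ Y i = true := by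
      intro Y
      unfold Pat
      rw [Nat.add_sub_cancel]
      constructor
      · rintro ⟨_, _, _, h | h⟩
        · omega
        · exact h.2.2
      · intro h
        exact ⟨by omega, by omega, by omega, Or.inr ⟨rfl, rfl, h⟩⟩
    rw [h2, h2] at h1
    exact Bool.eq_iff_iff.2 h1

end Pool.Agent.W515.VP
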